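import Pool.Agent.PFB.Stmts

/-!
# PFB squad, row A0S: near sequences force faces into the subspace
-/

set_option autoImplicit false

open Matrix Filter Topology

namespace Pool.Agent.PFB.H60

open Pool.Agent.PFS Pool.Agent.PFB

theorem a0s : A0sStmt := by
  intro n C h W' hfull p s y M hp hs hnear hlim hy z hz β hzy
  have hycl : y ∈ closure C :=
    isClosed_closure.mem_of_tendsto hlim (Eventually.of_forall fun m => h.cl_smul (hp m) (hs m).le)
  choose q hqW hq1 hq2 using hnear
  have hqcl : ∀ m, q m ∈ closure C := fun m => h.cl_of_le (hp m) (hq1 m)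
  obtain ⟨B, hB, hBn⟩ := h.normal
  -- bounded
  have hbd : ∀ m, ‖s m • q m‖ ≤ B * ‖M • (s m • p m)‖ := by
    intro m
    refine hBn _ _ (h.cl_smul (hqcl m) (hs m).le) ?_
    have e : M • (s m • p m) - s m • q m = s m • (M • p m - q m) := by
      rw [smul_sub, smul_comm]
    rw [e]
    exact h.cl_smul (hq2 m) (hs m).le
  have hlim2 : Tendsto (fun m => B * ‖M • (s m • p m)‖) atTop (𝓝 (B * ‖M • y‖)) :=
    ((hlim.const_smul M).norm).const_mul B
  obtain ⟨R, hR⟩ := hlim2.bddAbove_range
  have hin : ∀ m, s m • q m ∈ Metric.closedBall (0 : V n) R := by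
    intro m
    rw [mem_closedBall_zero_iff]
    exact (hbd m).trans (hR ⟨m, rfl⟩)
  obtain ⟨q0, -, φ, hφ, hq0⟩ := tendsto_subseq_of_bounded Metric.isBounded_closedBall hin
  have hq0W : q0 ∈ W' := by
    have hcl : IsClosed (W' : Set (V n)) := W'.closed_of_finiteDimensional
    exact hcl.mem_of_tendsto hq0 (Eventually.of_forall fun m => W'.smul_mem _ (hqW _))
  have hsub : Tendsto (fun m => s (φ m) • p (φ m)) atTop (𝓝 y) := hlim.comp hφ.tendsto_atTop
  have h1 : q0 - y ∈ closure C := by
    refine isClosed_closure.mem_of_tendsto (hq0.sub hsub) (Eventually.of_forall fun m => ?_)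
    change s (φ m) • q (φ m) - s (φ m) • p (φ m) ∈ closure C
    rw [← smul_sub]
    exact h.cl_smul (hq1 _) (hs _).le
  have h2 : M • y - q0 ∈ closure C := by
    refine isClosed_closure.mem_of_tendsto ((hsub.const_smul M).sub hq0)
      (Eventually.of_forall fun m => ?_)
    change M • (s (φ m) • p (φ m)) - s (φ m) • q (φ m) ∈ closure C
    have e : M • (s (φ m) • p (φ m)) - s (φ m) • q (φ m) =
        s (φ m) • (M • p (φ m) - q (φ m)) := by
      rw [smul_sub, smul_comm]
    rw [e]
    exact h.cl_smul (hq2 _) (hs _).le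
  have hq0cl : q0 ∈ closure C := h.cl_of_le hycl h1
  have hq0not : q0 ∉ C := by
    intro hq
    have hMy : M • y ∈ C := h.mem_of_le hq h2
    rcases le_or_gt M 0 with hM | hM
    · have h3 : (-M) • y ∈ closure C := h.cl_smul hycl (by linarith)
      have h4 := h.add_cl hMy h3
      rw [neg_smul, add_neg_cancel] at h4
      exact h.zero h4
    · exact hy ((h.smul_iff hM).1 hMy)
  set β' : ℝ := max β 1 with hβ'
  have hβ1 : 1 ≤ β' := le_max_right _ _
  have hββ : β ≤ β' := le_max_left _ _
  have h3 : β' • q0 - z ∈ closure C := by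
    have e : β' • q0 - z = β' • (q0 - y) + ((β' - β) • y + (β • y - z)) := by
      module
    rw [e]
    exact h.cl_add (h.cl_smul h1 (by linarith)) (h.cl_add (h.cl_smul hycl (by linarith)) hzy)
  have hF : q0 + z ∈ Face C q0 := by
    refine ⟨1 / (1 + β'), by positivity, ?_, ?_⟩
    · have e : q0 - (1 / (1 + β')) • (q0 + z) = (1 / (1 + β')) • (β' • q0 - z) := by
        have h5 : (1 / (1 + β')) * (1 + β') = 1 := by
          rw [one_div_mul_cancel]
          positivity
        ext i
        simp only [Pi.sub_apply, Pi.add_apply, Pi.smul_apply, smul_eq_mul]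
        linear_combination (-(q0 i)) * h5
      rw [e]
      exact h.cl_smul h3 (by positivity)
    · have e : q0 + z - (1 / (1 + β')) • q0 = (1 - 1 / (1 + β')) • q0 + z := by
        module
      rw [e]
      refine h.cl_add (h.cl_smul hq0cl ?_) hz
      have : 1 / (1 + β') ≤ 1 := by
        rw [div_le_one (by positivity)]
        linarith
      linarith
  have hmem := hfull q0 hq0W hq0cl hq0not _ hF
  have := W'.sub_mem hmem hq0W
  rwa [add_sub_cancel_left] at this

end Pool.Agent.PFB.H60
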