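import Pool.Agent.PFB.Stmts

/-!
# PFB squad, row AAS: rigidity
-/

set_option autoImplicit false

open Matrix Filter Topology

namespace Pool.Agent.PFB.H60

open Pool.Agent.PFS Pool.Agent.PFB

theorem pt_cl {n K : ℕ} {C : Set (V n)} (h : PCone C) {w : Fin K → V n}
    (hw : ∀ i, w i ∈ closure C) (u : Fin K → ℤ) : pt w u ∈ closure C :=
  h.cl_sum fun i _ => h.cl_smul (hw i) (by positivity)

theorem aas_key (a0s : A0sStmt) {n K : ℕ} {C : Set (V n)} (h : PCone C) {w : Fin K → V n}
    (hpes : PES C w) (hw : ∀ i, w i ∈ closure C) {W' : Submodule ℝ (V n)} (hfull : Full C W')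
    {M : ℝ} (c : Fin K → ℝ) (hc0 : ∀ l, 0 ≤ c l) (hz : ∃ l, c l = 0) (u : ℕ → Fin K → ℤ)
    (s : ℕ → ℝ) (hs : ∀ N, 0 < s N)
    (hlim : ∀ l, Tendsto (fun N => s N * (2 : ℝ) ^ (u N l)) atTop (𝓝 (c l)))
    (hnear : ∀ N, NearS C M W' (pt w (u N))) (j : Fin K) (hj : 1 ≤ c j) : w j ∈ W' := by
  have hl : Tendsto (fun N => s N • pt w (u N)) atTop (𝓝 (∑ l, c l • w l)) := by
    have e : (fun N => s N • pt w (u N)) = fun N => ∑ l, (s N * (2 : ℝ) ^ (u N l)) • w l := by
      funext N
      unfold pt
      rw [Finset.smul_sum]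
      exact Finset.sum_congr rfl fun l _ => by rw [smul_smul]
    rw [e]
    exact tendsto_finsetSum _ fun l _ => (hlim l).smul_const (w l)
  refine a0s n C h W' hfull (fun N => pt w (u N)) s (∑ l, c l • w l) M
    (fun N => pt_cl h hw (u N)) hs hnear hl (hpes.bd c hc0 hz) (w j) (hw j) 1 ?_
  rw [one_smul, ← Finset.add_sum_erase _ _ (Finset.mem_univ j)]
  have e : c j • w j + ∑ l ∈ Finset.univ.erase j, c l • w l - w j =
      (c j - 1) • w j + ∑ l ∈ Finset.univ.erase j, c l • w l := by
    rw [sub_smul, one_smul]
    abel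
  rw [e]
  exact h.cl_add (h.cl_smul (hw j) (by linarith)) (h.cl_sum fun l _ => h.cl_smul (hw l) (hc0 l))

theorem tendsto_inv_two_pow : Tendsto (fun N : ℕ => ((2 : ℝ) ^ N)⁻¹) atTop (𝓝 0) :=
  (tendsto_pow_atTop_atTop_of_one_lt (by norm_num : (1 : ℝ) < 2)).inv_tendsto_atTop

theorem aas (bfa : BfaStmt) (unf : UnfStmt) (a0s : A0sStmt) : AasStmt := by
  intro n C Γ h K hK L w β W' hbox hwcl hfull hdim
  have hpes : PES C w := hbox.pes.1
  obtain ⟨-, -, hunit, -, -, -⟩ := bfa n C Γ h K L w β hbox
  have part1 : (∀ i, w i ∈ W') → (⨆ a, L a) = W' := by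
    intro hw
    refine Submodule.eq_of_le_of_finrank_eq (iSup_le fun a => ?_) hdim.symm
    by_cases hex : ∃ i, β i = a
    · set u : V n := ∑ i ∈ Finset.univ.filter (fun i => β i = a), w i with hu
      have huW : u ∈ W' := W'.sum_mem fun i _ => hw i
      have hucl : u ∈ closure C := h.cl_sum fun i _ => hwcl i
      have hunot : u ∉ C := by
        have e : u = ∑ i, (if β i = a then (1 : ℝ) else 0) • w i := by
          rw [hu, Finset.sum_filter]
          refine Finset.sum_congr rfl fun i _ => ?_
          split_ifs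
          · rw [one_smul]
          · rw [zero_smul]
        rw [e]
        refine hpes.bd _ (fun i => ?_) ?_
        · split_ifs
          · exact zero_le_one
          · exact le_rfl
        · by_contra hn
          push Not at hn
          have hall : ∀ i, β i = a := by
            intro i
            by_contra h1
            exact hn i (if_neg h1)
          let i0 : Fin K := ⟨0, by omega⟩
          let i1 : Fin K := ⟨1, by omega⟩
          let i2 : Fin K := ⟨2, by omega⟩
          rcases hbox.three i0 i1 i2 (by rw [hall, hall]) (by rw [hall, hall]) with h1 | h1 | h1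
          · exact absurd (congrArg Fin.val h1) (by simp [i0, i1])
          · exact absurd (congrArg Fin.val h1) (by simp [i1, i2])
          · exact absurd (congrArg Fin.val h1) (by simp [i0, i2])
      intro z hz
      obtain ⟨-, -, -, -, h5, -⟩ := unf n C h (L a) u (hunit a)
      obtain ⟨t, ht, hF⟩ := h5 z hz
      have h6 := hfull u huW hucl hunot _ hF
      have h7 : t • z ∈ W' := by
        have := W'.sub_mem h6 huW
        rwa [add_sub_cancel_left] at this
      exact (W'.smul_mem_iff ht.ne').1 h7
    · push Not at hex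
      rw [hbox.bot a hex]
      exact bot_le
  refine ⟨part1, ?_, ?_⟩
  · intro i M hreg j hj
    refine aas_key a0s h hpes hwcl hfull (M := M) (fun l => if l = i then 0 else 1) ?_ ⟨i, if_pos rfl⟩
      (fun N l => if l = i then 0 else (N : ℤ) + 1) (fun N => ((2 : ℝ) ^ (N + 1))⁻¹)
      (fun N => by positivity) ?_ ?_ j ?_
    · intro l
      split_ifs
      · exact le_rfl
      · exact zero_le_one
    · intro l
      by_cases hl : l = i
      · simp only [hl, if_true, zpow_zero, mul_one]
        exact tendsto_inv_two_pow.comp (tendsto_add_atTop_nat 1)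
      · simp only [hl, if_false]
        have e : (fun N : ℕ => ((2 : ℝ) ^ (N + 1))⁻¹ * (2 : ℝ) ^ ((N : ℤ) + 1)) = fun _ => 1 := by
          funext N
          have h1 : (2 : ℝ) ^ ((N : ℤ) + 1) = (2 : ℝ) ^ (N + 1) := by
            have : ((N : ℤ) + 1) = ((N + 1 : ℕ) : ℤ) := by push_cast; rfl
            rw [this, zpow_natCast]
          rw [h1]
          exact inv_mul_cancel₀ (by positivity)
        rw [e]
        exact tendsto_const_nhds
    · intro N
      refine hreg _ fun l hl => ?_
      simp only [if_true, hl, if_false]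
      omega
    · simp only [hj, if_false]
      exact le_rfl
  · intro J M hJ hJc hreg
    apply part1
    intro i
    obtain ⟨i', hi', hii'⟩ : ∃ i', i' ∉ J ∧ (i ∉ J → i' = i) := by
      by_cases hi : i ∈ J
      · obtain ⟨i', hi'⟩ := Finset.card_pos.mp (lt_of_lt_of_le Nat.zero_lt_two hJc)
        exact ⟨i', Finset.mem_compl.1 hi', fun h1 => absurd hi h1⟩
      · exact ⟨i, hi, fun _ => rfl⟩
    obtain ⟨b, hb, hbi⟩ : ∃ b ∈ Jᶜ, b ≠ i' := Finset.exists_mem_ne (by omega) i'
    rw [Finset.mem_compl] at hb
    refine aas_key a0s h hpes hwcl hfull (M := M)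
      (fun l => if l ∈ J then 2 else if l = i' then 1 else 0) ?_
      ⟨b, by simp only [hb, hbi, if_false]⟩
      (fun N l => if l ∈ J then (N : ℤ) + 1 else if l = i' then (N : ℤ) else 0)
      (fun N => ((2 : ℝ) ^ N)⁻¹) (fun N => by positivity) ?_ ?_ i ?_
    · intro l
      split_ifs
      · exact zero_le_two
      · exact zero_le_one
      · exact le_rfl
    · intro l
      by_cases hl : l ∈ J
      · simp only [hl, if_true]
        have e : (fun N : ℕ => ((2 : ℝ) ^ N)⁻¹ * (2 : ℝ) ^ ((N : ℤ) + 1)) = fun _ => 2 := by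
          funext N
          rw [zpow_add₀ (by norm_num : (2 : ℝ) ≠ 0), zpow_one, zpow_natCast, ← mul_assoc,
            inv_mul_cancel₀ (by positivity), one_mul]
        rw [e]
        exact tendsto_const_nhds
      · by_cases hl2 : l = i'
        · subst hl2
          simp only [hl, if_false, if_true]
          have e : (fun N : ℕ => ((2 : ℝ) ^ N)⁻¹ * (2 : ℝ) ^ (N : ℤ)) = fun _ => 1 := by
            funext N
            rw [zpow_natCast, inv_mul_cancel₀ (by positivity)]
          rw [e]
          exact tendsto_const_nhds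
        · simp only [hl, hl2, if_false, zpow_zero, mul_one]
          exact tendsto_inv_two_pow
    · intro N
      refine hreg _ fun a ha c hc => ?_
      simp only [ha, hc, if_false, if_true]
      split_ifs <;> omega
    · by_cases hi : i ∈ J
      · simp only [hi, if_true]
        norm_num
      · have h1 := hii' hi
        subst h1
        simp only [hi, if_false, if_true]
        exact le_rfl

end Pool.Agent.PFB.H60
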