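import Pool.Agent.PFB.StmtsB

/-!
# PFB squad, row B_ZEX: zoom with two extreme vectors
-/

set_option autoImplicit false

open Matrix Filter Topology

namespace Pool.Agent.PFB.H60

open Pool.Agent.PFS Pool.Agent.PFB

theorem hull_sum {n : ℕ} {C : Set (V n)} {Γ : Subgroup (GL (Fin n) ℝ)} (H : HulFacts C Γ) {ι : Type}
    {s : Finset ι} (hs : s.Nonempty) {f : ι → V n} (hf : ∀ i ∈ s, f i ∈ Hull C Γ) :
    ∑ i ∈ s, f i ∈ Hull C Γ := by
  classical
  induction hs using Finset.Nonempty.cons_induction with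
  | singleton a => simpa using hf a (Finset.mem_singleton_self a)
  | cons a s ha hs ih =>
    rw [Finset.sum_cons]
    exact H.add _ (hf a (Finset.mem_cons_self a s)) _
      (ih fun i hi => hf i (Finset.mem_cons_of_mem hi))

theorem zex (zom : ZomStmt) (lim : LimStmt) (elm : ElmStmt) : ZexStmt := by
  intro n C Γ h q e1 e2 b he1 he2 hne1 hne2 hq hb hsum homit
  classical
  have H := h.hul
  let y : Fin 2 → V n := ![e1, e2]
  have hylam : ∀ s, y s ∈ LamC C Γ := by
    intro s
    fin_cases s
    · exact he1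
    · exact he2
  have hysum : ∑ s, y s = e1 + e2 := by
    rw [Fin.sum_univ_two]
    rfl
  have hx : (e1 + e2) ∈ closure C := h.cl_add (H.lamCl e1 he1) (H.lamCl e2 he2)
  have hxH : (e1 + e2) ∈ Hull C Γ := H.add _ (H.lamHull e1 he1) _ (H.lamHull e2 he2)
  let t : ℕ → ℝ := fun m => 1 / ((m : ℝ) + 1)
  have ht0 : ∀ m, 0 < t m := fun m => by simp only [t]; positivity
  have ht1 : ∀ m, t m ≤ 1 := fun m => by
    simp only [t]
    rw [div_le_one (by positivity)]
    have : (0 : ℝ) ≤ m := Nat.cast_nonneg m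
    linarith
  have htlim : Tendsto t atTop (𝓝 0) := tendsto_one_div_add_atTop_nhds_zero_nat
  let B : V n := ∑ j, b j
  have : Nonempty (Fin q) := ⟨⟨0, hq⟩⟩
  have hBH : B ∈ Hull C Γ := hull_sum H Finset.univ_nonempty fun j _ => hb j
  have hbcl : ∀ j, b j ∈ closure C := fun j => H.hullCl _ (hb j)
  let p : ℕ → V n := fun m => (e1 + e2) + t m • B
  have hpC : ∀ m, p m ∈ C := by
    intro m
    have h1 : t m • ((e1 + e2) + B) ∈ C := h.smul _ hsum _ (ht0 m)
    have h2 : (1 - t m) • (e1 + e2) ∈ closure C := h.cl_smul hx (by have := ht1 m; linarith)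
    have h3 := h.add_cl h1 h2
    have e : t m • ((e1 + e2) + B) + (1 - t m) • (e1 + e2) = p m := by
      simp only [p]
      rw [smul_add, sub_smul, one_smul]; abel
    rwa [e] at h3
  have hpH : ∀ m, p m ∈ Hull C Γ := fun m =>
    H.add _ hxH _ (H.smul B hBH (t m) (ht0 m))
  obtain ⟨φ, g, s, p0, hφ, hg, hs, hp0, hlimp⟩ := zom n C Γ h p hpC hpH
  let X : ℕ → (Fin 2 ⊕ Fin q) → V n := fun m =>
    Sum.elim (fun a => s m • act (g m) (y a)) (fun j => s m • act (g m) (t (φ m) • b j))
  have hsumX : ∀ m, ∑ i, X m i = s m • act (g m) (p (φ m)) := by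
    intro m
    rw [Fintype.sum_sum_type]
    simp only [X, Sum.elim_inl, Sum.elim_inr]
    rw [← Finset.smul_sum, ← Finset.smul_sum, ← CC.act_sum, ← CC.act_sum, ← smul_add,
      ← CC.act_add, ← Finset.smul_sum, hysum]
  have hXH : ∀ m i, X m i ∈ Hull C Γ := by
    rintro m (a | j)
    · exact H.smul _ (H.act _ (H.lamHull _ (hylam a)) _ (hg m)) _ (hs m)
    · exact H.smul _ (H.act _ (H.smul _ (hb j) _ (ht0 _)) _ (hg m)) _ (hs m)
  have hcard : 2 ≤ Fintype.card (Fin 2 ⊕ Fin q) := by
    rw [Fintype.card_sum, Fintype.card_fin, Fintype.card_fin]; omega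
  have hlimX : Tendsto (fun m => ∑ i, X m i) atTop (𝓝 p0) := by
    simp only [hsumX]; exact hlimp
  obtain ⟨ψ, W, hψ, hWlim, hWsum, hW⟩ := lim n C Γ h (Fin 2 ⊕ Fin q) hcard X p0 hXH hp0 hlimX
  have herase : ∀ i, Tendsto (fun m => ∑ j ∈ Finset.univ.erase i, X (ψ m) j) atTop
      (𝓝 (∑ j ∈ Finset.univ.erase i, W j)) := fun i =>
    tendsto_finsetSum _ fun j _ => hWlim j
  have hPES : IsPES C Γ W := by
    apply hW
    rintro (a | j)
    · -- omit one of the two extreme vectors
      intro hmem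
      obtain ⟨M, hM, hMC⟩ := h.absorb hmem (W (Sum.inl a))
      let η : ℝ := 1 / M
      have hη : 0 < η := by simp only [η]; positivity
      have hmem2 : (∑ j ∈ Finset.univ.erase (Sum.inl a), W j) - η • W (Sum.inl a) ∈ C := by
        have := h.smul _ hMC (1 / M) (by positivity)
        rwa [smul_sub, smul_smul, one_div_mul_cancel hM.ne', one_smul] at this
      have hl2 : Tendsto (fun m => (∑ j ∈ Finset.univ.erase (Sum.inl a), X (ψ m) j)
          - η • X (ψ m) (Sum.inl a)) atTop
          (𝓝 ((∑ j ∈ Finset.univ.erase (Sum.inl a), W j) - η • W (Sum.inl a))) :=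
        (herase (Sum.inl a)).sub ((hWlim (Sum.inl a)).const_smul η)
      have hev : ∀ᶠ m in atTop, p (φ (ψ m)) - (1 + η) • y a ∈ closure C := by
        filter_upwards [hl2.eventually (h.isOpen.mem_nhds hmem2)] with m hm
        have e : (∑ j ∈ Finset.univ.erase (Sum.inl a), X (ψ m) j) - η • X (ψ m) (Sum.inl a)
            = s (ψ m) • act (g (ψ m)) (p (φ (ψ m)) - (1 + η) • y a) := by
          rw [Finset.sum_erase_eq_sub (Finset.mem_univ _), hsumX]
          simp only [X, Sum.elim_inl]
          rw [CC.act_sub, CC.act_smul (g (ψ m)) (1 + η) (y a)]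
          module
        have hm' : (∑ j ∈ Finset.univ.erase (Sum.inl a), X (ψ m) j) - η • X (ψ m) (Sum.inl a)
            ∈ C := hm
        rw [e, h.sact_mem_iff (hg _) (hs _)] at hm'
        exact subset_closure hm'
      have hpx : Tendsto (fun m => p (φ (ψ m))) atTop (𝓝 (e1 + e2)) := by
        have h1 : Tendsto (fun m => t (φ (ψ m))) atTop (𝓝 0) :=
          htlim.comp (hφ.tendsto_atTop.comp hψ.tendsto_atTop)
        have h2 : Tendsto (fun m => (e1 + e2) + t (φ (ψ m)) • B) atTop
            (𝓝 ((e1 + e2) + (0 : ℝ) • B)) :=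
          tendsto_const_nhds.add (h1.smul_const B)
        rw [zero_smul, add_zero] at h2
        exact h2
      have hz : (e1 + e2) - (1 + η) • y a ∈ closure C :=
        isClosed_closure.mem_of_tendsto (hpx.sub tendsto_const_nhds) hev
      fin_cases a
      · apply hne2 η hη
        have e : (e1 + e2) - (1 + η) • y 0 = e2 - η • e1 := by
          have : y 0 = e1 := rfl
          rw [this]
          module
        rw [← e]
        exact hz
      · apply hne1 η hη
        have e : (e1 + e2) - (1 + η) • y 1 = e1 - η • e2 := by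
          have : y 1 = e2 := rfl
          rw [this]
          module
        rw [← e]
        exact hz
    · -- omit one of the added vertices
      intro hmem
      obtain ⟨m, hm⟩ := ((herase (Sum.inr j)).eventually (h.isOpen.mem_nhds hmem)).exists
      have e : ∑ i ∈ Finset.univ.erase (Sum.inr j), X (ψ m) i
          = s (ψ m) • act (g (ψ m)) (p (φ (ψ m)) - t (φ (ψ m)) • b j) := by
        rw [Finset.sum_erase_eq_sub (Finset.mem_univ _), hsumX]
        simp only [X, Sum.elim_inr]
        rw [CC.act_sub, smul_sub]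
      have hm' : ∑ i ∈ Finset.univ.erase (Sum.inr j), X (ψ m) i ∈ C := hm
      rw [e, h.sact_mem_iff (hg _) (hs _)] at hm'
      apply homit j
      refine h.mem_of_le hm' ?_
      have e2' : e1 + e2 + ∑ l ∈ Finset.univ.erase j, b l - (p (φ (ψ m)) - t (φ (ψ m)) • b j)
          = (1 - t (φ (ψ m))) • ∑ l ∈ Finset.univ.erase j, b l := by
        rw [Finset.sum_erase_eq_sub (Finset.mem_univ _)]
        simp only [p, B]
        rw [sub_smul, one_smul, smul_sub]
        abel
      rw [e2']
      exact h.cl_smul (h.cl_sum fun i _ => hbcl i) (by have := ht1 (φ (ψ m)); linarith)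
  exact ⟨fun i => W (finSumFinEquiv.symm i),
    (elm n C Γ h (Fin 2 ⊕ Fin q) W hPES).2.2.1 (Fin (2 + q)) finSumFinEquiv.symm⟩

end Pool.Agent.PFB.H60
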